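import Pool.Agent.H90.RD.Line

/-!
# MP_609556_an: comparison with a sum of exponentials on a moving region
-/

open MeasureTheory Set Filter Topology Metric

namespace Pool.Agent.H10.RF

open Pool.Agent.H91.RD Pool.Agent.H90.RD

variable {N : ℕ}

/-- one exponential -/
noncomputable def ex (a x0 : E N) (α β s : ℝ) (y : E N) : ℝ :=
  Real.exp (inner ℝ (y - x0) a + α * s + β)

theorem ex_pos (a x0 : E N) (α β s : ℝ) (y : E N) : 0 < ex a x0 α β s y := Real.exp_pos _

theorem ex_contDiff (a x0 : E N) (α β s : ℝ) : ContDiff ℝ 2 (ex a x0 α β s) := by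
  unfold ex
  refine ContDiff.exp ?_
  exact ((((contDiff_id.sub contDiff_const).inner ℝ contDiff_const).add contDiff_const).add
    contDiff_const)

theorem ex_continuous (a x0 : E N) (α β : ℝ) :
    Continuous (fun p : ℝ × E N => ex a x0 α β p.1 p.2) := by
  unfold ex; fun_prop

theorem ex_line (a x0 : E N) (α β s : ℝ) (y v : E N) (t : ℝ) :
    HasDerivAt (fun t : ℝ => ex a x0 α β s (y + t • v))
      (inner ℝ v a * ex a x0 α β s (y + t • v)) t := by
  have h1 : HasDerivAt (fun t : ℝ => inner ℝ (y + t • v - x0) a + α * s + β) (inner ℝ v a) t := by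
    have h2 : ∀ t : ℝ, inner ℝ (y + t • v - x0) a + α * s + β =
        t * inner ℝ v a + (inner ℝ (y - x0) a + α * s + β) := by
      intro t
      have : y + t • v - x0 = (y - x0) + t • v := by abel
      rw [this, inner_add_left, inner_smul_left]
      simp only [conj_trivial]
      ring
    simp only [h2]
    have := ((hasDerivAt_id t).mul_const (inner ℝ v a)).add_const
      (inner ℝ (y - x0) a + α * s + β)
    simpa using this
  refine h1.exp.congr_deriv ?_
  unfold ex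
  ring

theorem ex_lap (a x0 : E N) (α β s : ℝ) (y : E N) :
    Laplacian.laplacian (ex a x0 α β s) y = ‖a‖ ^ 2 * ex a x0 α β s y := by
  have key : ∀ v : E N, fderiv ℝ (fderiv ℝ (ex a x0 α β s)) y v v =
      (inner ℝ a v) ^ 2 * ex a x0 α β s y := by
    intro v
    refine line_eq (ex_contDiff a x0 α β s).contDiffAt (ex_line a x0 α β s y v) ?_
    have h := (ex_line a x0 α β s y v 0).const_mul (inner ℝ v a)
    refine h.congr_deriv ?_
    rw [zero_smul, add_zero, real_inner_comm]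
    ring
  rw [lap_eq_sum, Finset.sum_congr rfl fun i _ => key _, ← Finset.sum_mul, sum_inner_sq]

theorem ex_time (a x0 : E N) (α β s : ℝ) (y : E N) :
    HasDerivAt (fun s => ex a x0 α β s y) (α * ex a x0 α β s y) s := by
  have h1 : HasDerivAt (fun s : ℝ => inner ℝ (y - x0) a + α * s + β) α s := by
    have := (((hasDerivAt_id s).const_mul α).const_add (inner ℝ (y - x0) a)).add_const β
    simpa using this
  refine h1.exp.congr_deriv ?_
  unfold ex
  ring

/-- a sum of exponentials -/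
noncomputable def Bs {ι : Type*} [Fintype ι] (a : ι → E N) (x0 : E N) (α β : ι → ℝ) (s : ℝ)
    (y : E N) : ℝ := ∑ j, ex (a j) x0 (α j) (β j) s y

section
variable {ι : Type*} [Fintype ι] (a : ι → E N) (x0 : E N) (α β : ι → ℝ)

theorem Bs_contDiff (s : ℝ) : ContDiff ℝ 2 (Bs a x0 α β s) := by
  unfold Bs
  exact ContDiff.sum fun j _ => ex_contDiff (a j) x0 (α j) (β j) s

theorem Bs_continuous : Continuous (fun p : ℝ × E N => Bs a x0 α β p.1 p.2) := by
  unfold Bs
  exact continuous_finsetSum _ fun j _ => ex_continuous (a j) x0 (α j) (β j)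

theorem Bs_time (s : ℝ) (y : E N) :
    HasDerivAt (fun s => Bs a x0 α β s y) (∑ j, α j * ex (a j) x0 (α j) (β j) s y) s := by
  unfold Bs
  exact HasDerivAt.fun_sum fun j _ => ex_time (a j) x0 (α j) (β j) s y

theorem Bs_lap (s : ℝ) (y : E N) :
    Laplacian.laplacian (Bs a x0 α β s) y = ∑ j, ‖a j‖ ^ 2 * ex (a j) x0 (α j) (β j) s y := by
  have hgen : ∀ S : Finset ι, Laplacian.laplacian
      (fun y => ∑ j ∈ S, ex (a j) x0 (α j) (β j) s y) y =
      ∑ j ∈ S, ‖a j‖ ^ 2 * ex (a j) x0 (α j) (β j) s y := by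
    classical
    intro S
    induction S using Finset.induction_on with
    | empty =>
      simp only [Finset.sum_empty]
      rw [lap_eq_sum]
      simp
    | insert j S hj ih =>
      simp only [Finset.sum_insert hj]
      have h1 : ContDiffAt ℝ 2 (ex (a j) x0 (α j) (β j) s) y :=
        (ex_contDiff (a j) x0 (α j) (β j) s).contDiffAt
      have h2 : ContDiffAt ℝ 2 (fun y => ∑ j ∈ S, ex (a j) x0 (α j) (β j) s y) y :=
        (ContDiff.sum fun j _ => ex_contDiff (a j) x0 (α j) (β j) s).contDiffAt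
      have h3 := h1.laplacian_add h2
      have h4 : (fun y => ex (a j) x0 (α j) (β j) s y +
          ∑ j ∈ S, ex (a j) x0 (α j) (β j) s y) =
          ex (a j) x0 (α j) (β j) s + fun y => ∑ j ∈ S, ex (a j) x0 (α j) (β j) s y := rfl
      rw [h4, h3, ex_lap, ih]
  exact hgen Finset.univ

theorem Bs_pos_of_mem (j : ι) (s : ℝ) (y : E N) :
    ex (a j) x0 (α j) (β j) s y ≤ Bs a x0 α β s y := by
  unfold Bs
  exact Finset.single_le_sum (f := fun j => ex (a j) x0 (α j) (β j) s y)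
    (fun i _ => (ex_pos _ _ _ _ _ _).le) (Finset.mem_univ j)

theorem Bs_nonneg (s : ℝ) (y : E N) : 0 ≤ Bs a x0 α β s y := by
  unfold Bs
  exact Finset.sum_nonneg fun j _ => (ex_pos _ _ _ _ _ _).le

end

/-- derivative at the right end of an interval where the minimum is attained -/
theorem deriv_nonpos_of_min {φ : ℝ → ℝ} {d a b : ℝ} (hab : a < b) (hd : HasDerivAt φ d b)
    (hmin : ∀ s ∈ Icc a b, φ b ≤ φ s) : d ≤ 0 := by
  have h1 : Tendsto (slope φ b) (𝓝[<] b) (𝓝 d) :=
    (hasDerivAt_iff_tendsto_slope.1 hd).mono_left (nhdsWithin_mono _ fun s hs => ne_of_lt hs)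
  refine le_of_tendsto h1 ?_
  filter_upwards [Ioo_mem_nhdsLT hab] with s hs
  rw [slope_def_field]
  exact div_nonpos_of_nonneg_of_nonpos (sub_nonneg.2 (hmin s ⟨hs.1.le, hs.2.le⟩))
    (by linarith [hs.2])

/-- comparison with a sum of exponentials on the region `‖y - x0‖ ≤ r`, `l (s,y) ≥ 0` -/
theorem bar {ι : Type*} [Fintype ι] {κ s0 t r : ℝ} {a : ι → E N} {x0 : E N} {α β : ι → ℝ}
    {l : ℝ × E N → ℝ} {v : ℝ → E N → ℝ} (hκ : 0 < κ) (hst : s0 ≤ t) (hr : 0 ≤ r)
    (hcont : ContinuousOn (fun p : ℝ × E N => v p.1 p.2) (Icc s0 t ×ˢ univ))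
    (hα : ∀ j, ‖a j‖ ^ 2 - κ ≤ α j) (hl : Continuous l)
    (hlm : ∀ s s' y, s' ≤ s → 0 < l (s, y) → 0 ≤ l (s', y))
    (hd : ∀ s ∈ Ioc s0 t, ∀ y, 0 < l (s, y) → dist y x0 < r → 0 < v s y →
      ContDiffAt ℝ 2 (v s) y ∧ DifferentiableAt ℝ (fun s => v s y) s ∧
      deriv (fun s => v s y) s - Laplacian.laplacian (v s) y ≤ -(κ * v s y))
    (hb0 : ∀ y, dist y x0 ≤ r → 0 ≤ l (s0, y) → v s0 y ≤ Bs a x0 α β s0 y)
    (hb1 : ∀ s ∈ Icc s0 t, ∀ y, dist y x0 = r → 0 ≤ l (s, y) → v s y ≤ Bs a x0 α β s y)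
    (hb2 : ∀ s ∈ Icc s0 t, ∀ y, dist y x0 ≤ r → l (s, y) = 0 → v s y ≤ Bs a x0 α β s y)
    (hl0 : 0 ≤ l (t, x0)) : v t x0 ≤ Bs a x0 α β t x0 := by
  by_contra hneg
  push Not at hneg
  set Z : ℝ × E N → ℝ := fun p => Bs a x0 α β p.1 p.2 - v p.1 p.2 with hZ
  set D : Set (ℝ × E N) := (Icc s0 t ×ˢ closedBall x0 r) ∩ {p | 0 ≤ l p} with hD
  have hDc : IsCompact D :=
    (isCompact_Icc.prod (isCompact_closedBall _ _)).inter_right
      (isClosed_le continuous_const hl)
  have hmem : (t, x0) ∈ D := ⟨⟨⟨hst, le_rfl⟩, mem_closedBall_self hr⟩, hl0⟩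
  have hZc : ContinuousOn Z D :=
    (Bs_continuous a x0 α β).continuousOn.sub
      (hcont.mono fun p hp => ⟨hp.1.1, mem_univ _⟩)
  obtain ⟨⟨s, y⟩, hsy, hmin⟩ := hDc.exists_isMinOn ⟨_, hmem⟩ hZc
  have hval : Z (s, y) < 0 := by
    have h1 : Z (t, x0) < 0 := by simp only [hZ]; linarith
    exact (hmin hmem).trans_lt h1
  have hs : s ∈ Icc s0 t := hsy.1.1
  have hy : dist y x0 ≤ r := hsy.1.2
  have hly : 0 ≤ l (s, y) := hsy.2
  have hvB : Bs a x0 α β s y < v s y := by simp only [hZ] at hval; linarith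
  have hs0 : s0 < s := by
    refine lt_of_le_of_ne hs.1 fun h => ?_
    have := hb0 y hy (by rw [h]; exact hly)
    rw [h] at this
    linarith
  have hyr : dist y x0 < r := by
    refine lt_of_le_of_ne hy fun h => ?_
    have := hb1 s hs y h hly
    linarith
  have hlp : 0 < l (s, y) := by
    refine lt_of_le_of_ne hly fun h => ?_
    have := hb2 s hs y hy h.symm
    linarith
  have hv0 : 0 < v s y := (Bs_nonneg a x0 α β s y).trans_lt hvB
  obtain ⟨hc2, hdt, hineq⟩ := hd s ⟨hs0, hs.2⟩ y hlp hyr hv0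
  -- minimum in space
  have hspace : 0 ≤ Laplacian.laplacian (Bs a x0 α β s) y - Laplacian.laplacian (v s) y := by
    have hB2 : ContDiffAt ℝ 2 (Bs a x0 α β s) y := (Bs_contDiff a x0 α β s).contDiffAt
    have h1 : 0 ≤ Laplacian.laplacian (Bs a x0 α β s - v s : E N → ℝ) y := by
      refine lap_nonneg (hB2.sub hc2) ?_
      have e1 : ∀ᶠ y' in 𝓝 y, dist y' x0 < r := isOpen_ball.mem_nhds (mem_ball.2 hyr)
      have e2 : ∀ᶠ y' in 𝓝 y, 0 < l (s, y') := by
        have hc : Continuous fun y' : E N => l (s, y') := hl.comp (by fun_prop)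
        exact (isOpen_lt continuous_const hc).mem_nhds hlp
      filter_upwards [e1, e2] with y' h1 h2
      have h3 : ((s, y') : ℝ × E N) ∈ D := ⟨⟨hs, h1.le⟩, h2.le⟩
      have h4 : Z (s, y) ≤ Z (s, y') := hmin h3
      simp only [Pi.sub_apply]
      exact h4
    have h2 : (Bs a x0 α β s - v s : E N → ℝ) = Bs a x0 α β s + (-1 : ℝ) • v s := by
      funext y'
      simp only [Pi.sub_apply, Pi.add_apply, Pi.smul_apply, smul_eq_mul]
      ring
    have hc2' : ContDiffAt ℝ 2 ((-1 : ℝ) • v s) y := contDiffAt_const.smul hc2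
    rw [h2, hB2.laplacian_add hc2', InnerProductSpace.laplacian_smul _ hc2, smul_eq_mul] at h1
    linarith
  -- minimum in time
  have htime : (∑ j, α j * ex (a j) x0 (α j) (β j) s y) - deriv (fun s => v s y) s ≤ 0 := by
    refine deriv_nonpos_of_min (φ := fun r => Z (r, y)) hs0 ?_ fun q hq => ?_
    · exact (Bs_time a x0 α β s y).sub hdt.hasDerivAt
    · have h3 : ((q, y) : ℝ × E N) ∈ D :=
        ⟨⟨⟨hq.1, hq.2.trans hs.2⟩, hy⟩, hlm s q y hq.2 hlp⟩
      exact hmin h3
  rw [Bs_lap] at hspace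
  have hsum : ∑ j, ‖a j‖ ^ 2 * ex (a j) x0 (α j) (β j) s y -
      κ * Bs a x0 α β s y ≤ ∑ j, α j * ex (a j) x0 (α j) (β j) s y := by
    unfold Bs
    rw [Finset.mul_sum, ← Finset.sum_sub_distrib]
    refine Finset.sum_le_sum fun j _ => ?_
    have h1 := hα j
    have h2 := ex_pos (a j) x0 (α j) (β j) s y
    nlinarith
  have h5 : κ * Bs a x0 α β s y < κ * v s y := mul_lt_mul_of_pos_left hvB hκ
  linarith

end Pool.Agent.H10.RF
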