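import Pool.Agent.H91.RF.TargetsA
import Pool.Agent.H91.RF.TargetsK
import Pool.Agent.H91.RD.Basic
import Pool.Agent.H10.RF.Bar

/-!
# MP_609556_an, module AHDN: exponential decay ahead, over a stable platform
-/

open MeasureTheory Set Filter Topology Metric
open Pool.Agent.H29.TF (hk P)

namespace Pool.Agent.H10.RF

open Pool.Agent.H91.RD Pool.Agent.H91.RF

variable {N : ℕ}

/-- linear stability at a zero with negative derivative -/
theorem stable_nhds {f : ℝ → ℝ} (hf : Reaction f) {lo : ℝ} (h0 : 0 < lo) (h1 : lo < 1)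
    (hfl : f lo = 0) (hfp : fp f lo < 0) :
    ∃ κ > 0, ∃ ε0 > 0, ∀ s, |s - lo| ≤ ε0 → (s - lo) * f s ≤ -(κ * (s - lo) ^ 2) := by
  have hmem : lo ∈ Icc (0 : ℝ) 1 := ⟨h0.le, h1.le⟩
  have hd : HasDerivAt f (fp f lo) lo := by
    have h2 : DifferentiableWithinAt ℝ f (Icc 0 1) lo :=
      (hf.smooth.differentiableOn (by norm_num)) lo hmem
    exact h2.hasDerivWithinAt.hasDerivAt (Icc_mem_nhds h0 h1)
  set κ : ℝ := -fp f lo / 2 with hκ
  have hκ0 : 0 < κ := by rw [hκ]; linarith
  have h3 := (hasDerivAt_iff_isLittleO.1 hd).bound hκ0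
  rw [Metric.eventually_nhds_iff] at h3
  obtain ⟨ε, hε, h4⟩ := h3
  refine ⟨κ, hκ0, ε / 2, by positivity, fun s hs => ?_⟩
  have h5 := @h4 s (by rw [Real.dist_eq]; linarith)
  rw [Real.norm_eq_abs, Real.norm_eq_abs, hfl, sub_zero, smul_eq_mul] at h5
  have h6 : (s - lo) * (f s - (s - lo) * fp f lo) ≤ κ * (s - lo) ^ 2 := by
    calc (s - lo) * (f s - (s - lo) * fp f lo) ≤ |(s - lo) * (f s - (s - lo) * fp f lo)| :=
          le_abs_self _
      _ = |s - lo| * |f s - (s - lo) * fp f lo| := abs_mul _ _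
      _ ≤ |s - lo| * (κ * |s - lo|) := mul_le_mul_of_nonneg_left h5 (abs_nonneg _)
      _ = κ * |s - lo| ^ 2 := by ring
      _ = κ * (s - lo) ^ 2 := by rw [sq_abs]
  have h7 : fp f lo = -(2 * κ) := by rw [hκ]; ring
  rw [h7] at h6
  nlinarith

/-- a coordinate is at least `‖X‖ / √N` -/
theorem exists_coord (hN : 1 ≤ N) (X : E N) : ∃ i, ‖X‖ / √N ≤ |X i| := by
  by_contra h
  push Not at h
  have hN0 : (0 : ℝ) < N := by exact_mod_cast hN
  have h1 : ‖X‖ ^ 2 < ‖X‖ ^ 2 := by
    have hne : (Finset.univ : Finset (Fin N)).Nonempty := ⟨⟨0, hN⟩, Finset.mem_univ _⟩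
    calc ‖X‖ ^ 2 = ∑ i, ‖X i‖ ^ 2 := EuclideanSpace.norm_sq_eq X
      _ < ∑ _i : Fin N, (‖X‖ / √N) ^ 2 := by
          refine Finset.sum_lt_sum_of_nonempty hne fun i _ => ?_
          rw [Real.norm_eq_abs]
          exact pow_lt_pow_left₀ (h i) (abs_nonneg _) (by norm_num)
      _ = ‖X‖ ^ 2 := by
          rw [Finset.sum_const, Finset.card_univ, Fintype.card_fin, nsmul_eq_mul, div_pow,
            Real.sq_sqrt hN0.le]
          field_simp
  exact lt_irrefl _ h1

/-- the Gaussian average of an exponential is finite -/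
theorem gauss_exp (N : ℕ) (c : ℝ) : ∃ M : ℝ, 0 < M ∧ ∀ x : E N,
    Integrable (fun y : E N => hk 8 (x - y) * Real.exp (c * ‖x - y‖)) ∧
    ∫ y : E N, hk 8 (x - y) * Real.exp (c * ‖x - y‖) ≤ M := by
  have h8 : (0 : ℝ) < 8 := by norm_num
  have h16 : (0 : ℝ) < 16 := by norm_num
  obtain ⟨A, hA0, hA⟩ : ∃ A : ℝ, 0 < A ∧ ∀ z : E N, hk 8 z * Real.exp (c * ‖z‖) ≤ A * hk 16 z := by
    set a : ℝ := (4 * Real.pi * 8) ^ (-(Module.finrank ℝ (E N) : ℝ) / 2) with ha
    set b : ℝ := (4 * Real.pi * 16) ^ (-(Module.finrank ℝ (E N) : ℝ) / 2) with hb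
    have ha0 : 0 < a := by rw [ha]; positivity
    have hb0 : 0 < b := by rw [hb]; positivity
    refine ⟨a / b * Real.exp (16 * c ^ 2), by positivity, fun z => ?_⟩
    unfold hk
    rw [← ha, ← hb]
    have h1 : Real.exp (-‖z‖ ^ 2 / (4 * 8)) * Real.exp (c * ‖z‖) ≤
        Real.exp (16 * c ^ 2) * Real.exp (-‖z‖ ^ 2 / (4 * 16)) := by
      rw [← Real.exp_add, ← Real.exp_add, Real.exp_le_exp]
      nlinarith [sq_nonneg (‖z‖ - 32 * c)]
    calc a * Real.exp (-‖z‖ ^ 2 / (4 * 8)) * Real.exp (c * ‖z‖)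
        = a * (Real.exp (-‖z‖ ^ 2 / (4 * 8)) * Real.exp (c * ‖z‖)) := by ring
      _ ≤ a * (Real.exp (16 * c ^ 2) * Real.exp (-‖z‖ ^ 2 / (4 * 16))) :=
          mul_le_mul_of_nonneg_left h1 ha0.le
      _ = a / b * Real.exp (16 * c ^ 2) * (b * Real.exp (-‖z‖ ^ 2 / (4 * 16))) := by
          field_simp
  refine ⟨A, hA0, fun x => ?_⟩
  have hi : Integrable (fun y : E N => A * hk 16 (x - y)) :=
    (Pool.Agent.H29.TF.integrable_hk_sub h16 x).const_mul A
  have hint : Integrable (fun y : E N => hk 8 (x - y) * Real.exp (c * ‖x - y‖)) := by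
    refine hi.mono' ?_ (Eventually.of_forall fun y => ?_)
    · refine Continuous.aestronglyMeasurable ?_
      have := Pool.Agent.H29.TF.continuous_hk (V := E N) 8
      exact (this.comp (by fun_prop)).mul (by fun_prop)
    · rw [Real.norm_eq_abs, abs_of_nonneg
        (mul_nonneg (Pool.Agent.H29.TF.hk_nonneg h8.le _) (Real.exp_pos _).le)]
      exact hA (x - y)
  refine ⟨hint, ?_⟩
  calc ∫ y : E N, hk 8 (x - y) * Real.exp (c * ‖x - y‖) ≤ ∫ y : E N, A * hk 16 (x - y) :=
        integral_mono hint hi fun y => hA (x - y)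
    _ = A := by rw [integral_const_mul, Pool.Agent.H29.TF.integral_hk_sub h16 x, mul_one]

/-- exponential decay of `|u - lo|` ahead of the ratio `cc` -/
theorem claim (hG : T_GEOB) (hE : T_E0) {f : ℝ → ℝ} {K cc lo hi : ℝ} {U : Set (E N)}
    {u : ℝ → E N → ℝ} (hS : Stg f K U u) (hM : Mac U u cc lo hi) (hlo : 0 < lo)
    (hfl : f lo = 0) (hfp : fp f lo < 0) : ∃ η > 0, ∀ ε > 0, ∃ T > 0, ∀ t ≥ T, ∀ x,
      cc * t ≤ infDist x U → infDist x U ≤ (cc + η) * t →
      |u t x - lo| ≤ 3 * Real.exp (-(cc / 2 * (infDist x U - cc * t)) + ε * t) := by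
  have hcc := hM.cpos
  have hlo1 : lo < 1 := hM.lohi.trans_le hM.hi1
  obtain ⟨κ, hκ0, ε0, hε0, hst⟩ := stable_nhds hS.reac hlo hlo1 hfl hfp
  obtain ⟨ηL, hηL, hlow⟩ := hM.low
  obtain ⟨Cg, hCg, ρ0, hρ0, hgeo⟩ := hG N U (cc / 2) (cc + 2) hS.condC hS.ne (by positivity)
    (by linarith)
  have hN0 : (0 : ℝ) < N := by exact_mod_cast hS.N1
  have hsN : 0 < √(N : ℝ) := Real.sqrt_pos.2 hN0
  -- parameters
  set ρ : ℝ := min ρ0 (ηL / 4) with hρ
  have hρ1 : 0 < ρ := by rw [hρ]; positivity
  have hρ2 : ρ ≤ ρ0 := min_le_left _ _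
  have hρ3 : ρ ≤ ηL / 4 := min_le_right _ _
  set r : ℝ := min (1 / 2) (ηL / (4 * (cc + ηL))) with hr
  have hr1 : 0 < r := by rw [hr]; positivity
  have hr2 : r ≤ 1 / 2 := min_le_left _ _
  have hr3 : r * (cc + ηL) ≤ ηL / 4 := by
    have h1 : r ≤ ηL / (4 * (cc + ηL)) := min_le_right _ _
    rw [le_div_iff₀ (by positivity)] at h1
    linarith
  set k : ℝ := √κ with hk'
  have hk0 : 0 < k := Real.sqrt_pos.2 hκ0
  have hk2 : k ^ 2 = κ := Real.sq_sqrt hκ0.le
  set η : ℝ := min (min (min (ηL / 4) 2) (k * ρ / √N / cc)) (κ * r / cc) with hη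
  have hη0 : 0 < η := by rw [hη]; positivity
  have hη1 : η ≤ ηL / 4 :=
    ((min_le_left _ _).trans (min_le_left _ _)).trans (min_le_left _ _)
  have hη2 : η ≤ 2 :=
    ((min_le_left _ _).trans (min_le_left _ _)).trans (min_le_right _ _)
  have hη3 : cc * η ≤ k * ρ / √N := by
    have h1 : η ≤ k * ρ / √N / cc := (min_le_left _ _).trans (min_le_right _ _)
    rw [le_div_iff₀ hcc] at h1
    linarith
  have hη4 : cc * η ≤ κ * r := by
    have h1 : η ≤ κ * r / cc := min_le_right _ _
    rw [le_div_iff₀ hcc] at h1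
    linarith
  refine ⟨η, hη0, fun ε hε => ?_⟩
  set δ : ℝ := ε / (3 * cc) with hδ
  have hδ0 : 0 < δ := by rw [hδ]; positivity
  have hδε : 3 * δ * cc = ε := by rw [hδ]; field_simp
  obtain ⟨ηG, hηG, TG, hTG, hgeo2⟩ := hgeo ρ hρ1 hρ2 (δ / 2) (by positivity)
  obtain ⟨TA, hTA, hahead⟩ := hM.ahead (min (2 * δ) ε0) (by positivity)
  obtain ⟨TL, hTL, hlow2⟩ := hlow ε0 hε0
  set b0 : ℝ := k * ρ / √N with hb0
  have hb00 : 0 < b0 := by rw [hb0]; positivity
  set T : ℝ := max (max TG (2 * TA)) (max (2 * TL) (4 * N / b0)) with hT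
  have hT0 : 0 < T := lt_of_lt_of_le hTG ((le_max_left _ _).trans (le_max_left _ _))
  refine ⟨T, hT0, fun t ht x0 hd1 hd2 => ?_⟩
  have ht0 : 0 < t := hT0.trans_le ht
  have htG : TG ≤ t := ((le_max_left _ _).trans (le_max_left _ _)).trans ht
  have htA : 2 * TA ≤ t := ((le_max_right _ _).trans (le_max_left _ _)).trans ht
  have htL : 2 * TL ≤ t := ((le_max_left _ _).trans (le_max_right _ _)).trans ht
  have htN : 4 * N / b0 ≤ t := ((le_max_right _ _).trans (le_max_right _ _)).trans ht
  set d : ℝ := infDist x0 U with hd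
  have hrange : ∀ s > 0, ∀ y, |u s y - lo| ≤ 1 := by
    intro s hs y
    have h1 := hS.sol.nonneg hs y
    have h2 := hS.sol.le_one hs y
    rw [abs_le]; constructor <;> linarith
  by_cases hcase : d < (cc + 3 * δ) * t
  · -- trivial case
    have h1 : 0 ≤ -(cc / 2 * (d - cc * t)) + ε * t := by
      have h2 : d - cc * t ≤ 3 * δ * t := by linarith
      have h3 : cc / 2 * (d - cc * t) ≤ cc / 2 * (3 * δ * t) :=
        mul_le_mul_of_nonneg_left h2 (by positivity)
      have h4 : cc / 2 * (3 * δ * t) = ε / 2 * t := by rw [← hδε]; ring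
      have h5 : ε / 2 * t ≤ ε * t := mul_le_mul_of_nonneg_right (by linarith) ht0.le
      linarith
    have h2 := Real.one_le_exp h1
    have h3 := hrange t ht0 x0
    linarith
  push Not at hcase
  have hdpos : 0 < infDist x0 U := lt_of_lt_of_le (by positivity) hd1
  obtain ⟨ξ, e, hdir⟩ := hE N U x0 hdpos
  have hND : NDir U ηG x0 e := ⟨hdir.unit, ξ, e, hdir, by rw [sub_self, norm_zero]; exact hηG.le⟩
  have hcct : 0 < cc * t := mul_pos hcc ht0
  have hd3 : cc / 2 * t ≤ infDist x0 U := by rw [← hd]; linarith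
  have hd4 : infDist x0 U ≤ (cc + 2) * t :=
    hd2.trans (mul_le_mul_of_nonneg_right (by linarith) ht0.le)
  have hbox := hgeo2 t htG x0 e hND hd3 hd4
  set s0 : ℝ := (1 - r) * t with hs0
  have hrt : r * t ≤ 1 / 2 * t := mul_le_mul_of_nonneg_right hr2 ht0.le
  have hrt0 : 0 < r * t := mul_pos hr1 ht0
  have hs00 : t / 2 ≤ s0 := by rw [hs0]; linarith
  have hs0t : s0 ≤ t := by rw [hs0]; linarith
  -- the barrier
  set a : Option (Option (Fin N × Bool)) → E N := fun j => match j with
    | none => (-(cc / 2)) • e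
    | some none => 0
    | some (some (i, b)) => (if b then k else -k) • EuclideanSpace.basisFun (Fin N) ℝ i with ha
  set α : Option (Option (Fin N × Bool)) → ℝ := fun j => match j with
    | none => cc ^ 2 / 2
    | some none => -κ
    | some (some _) => 0 with hα
  set β : Option (Option (Fin N × Bool)) → ℝ := fun j => match j with
    | none => -(cc / 2 * d) + ε * t
    | some none => κ * s0
    | some (some _) => -(b0 * t) with hβ
  have hx1 : ∀ s y, ex (a none) x0 (α none) (β none) s y =
      Real.exp (-(cc / 2 * (d + inner ℝ (y - x0) e - cc * s)) + ε * t) := by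
    intro s y
    simp only [ex, ha, hα, hβ, inner_smul_right]
    congr 1
    ring
  have hx2 : ∀ s y, ex (a (some none)) x0 (α (some none)) (β (some none)) s y =
      Real.exp (-(κ * (s - s0))) := by
    intro s y
    simp only [ex, ha, hα, hβ, inner_zero_right]
    congr 1
    ring
  have hx3 : ∀ i b s y, ex (a (some (some (i, b)))) x0 (α (some (some (i, b))))
      (β (some (some (i, b)))) s y =
      Real.exp ((if b then k else -k) * (y - x0) i - b0 * t) := by
    intro i b s y
    simp only [ex, ha, hα, hβ, inner_smul_right, EuclideanSpace.basisFun_apply,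
      EuclideanSpace.inner_single_right]
    congr 1
    simp
    ring
  -- both signs
  have hmain : ∀ σ : ℝ, σ ^ 2 = 1 → σ * (u t x0 - lo) ≤ Bs a x0 α β t x0 := by
    intro σ hσ
    have hσ1 : |σ| = 1 := by
      have : |σ| ^ 2 = 1 := by rw [sq_abs]; exact hσ
      exact (pow_eq_one_iff_of_nonneg (abs_nonneg σ) two_ne_zero).1 this
    have hle1 : ∀ s > 0, ∀ y, σ * (u s y - lo) ≤ 1 := by
      intro s hs y
      calc σ * (u s y - lo) ≤ |σ * (u s y - lo)| := le_abs_self _
        _ = |u s y - lo| := by rw [abs_mul, hσ1, one_mul]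
        _ ≤ 1 := hrange s hs y
    refine bar (κ := κ) (s0 := s0) (t := t) (r := ρ * t) (a := a) (x0 := x0) (α := α) (β := β)
      (l := fun p => d + inner ℝ (p.2 - x0) e - (cc + 3 * δ) * p.1)
      (v := fun s y => σ * (u s y - lo)) hκ0 hs0t (by positivity) ?_ ?_ ?_ ?_ ?_ ?_ ?_ ?_ ?_
    · -- continuity
      refine continuousOn_const.mul (ContinuousOn.sub ?_ continuousOn_const)
      refine hS.sol.sol.cont.mono ?_
      rintro ⟨s, y⟩ ⟨hs, _⟩
      exact ⟨by have := hs.1; simp only [mem_Ioi]; simp only at this; linarith, mem_univ _⟩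
    · -- rates
      rintro (_ | _ | ⟨i, b⟩)
      · simp only [ha, hα]
        rw [norm_smul, hdir.unit, mul_one, Real.norm_eq_abs, sq_abs]
        have h1 : (-(cc / 2)) ^ 2 = cc ^ 2 / 4 := by ring
        have h2 := sq_nonneg cc
        linarith
      · simp only [ha, hα, norm_zero]
        linarith
      · simp only [ha, hα]
        rw [norm_smul, Real.norm_eq_abs]
        have h1 : |if b then k else -k| = k := by
          split_ifs
          · exact abs_of_pos hk0
          · rw [abs_neg]; exact abs_of_pos hk0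
        have h2 : ‖EuclideanSpace.basisFun (Fin N) ℝ i‖ = 1 := by simp
        rw [h1, h2, mul_one, hk2]
        linarith
    · fun_prop
    · -- monotonicity
      intro s s' y hs hp
      simp only at hp ⊢
      have : (cc + 3 * δ) * s' ≤ (cc + 3 * δ) * s :=
        mul_le_mul_of_nonneg_left hs (by positivity)
      linarith
    · -- differential inequality
      intro s hs y hp hy hv
      simp only at hp hv ⊢
      have hs1 : t / 2 < s := lt_of_le_of_lt hs00 hs.1
      have hs2 : 0 < s := by linarith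
      have hc2 := hS.sol.sol.c2 s hs2
      have hdt := hS.sol.sol.dt s hs2 y
      have hlap : Laplacian.laplacian (fun y => σ * (u s y - lo)) y =
          σ * Laplacian.laplacian (u s) y := by
        have h1 : (fun y => σ * (u s y - lo)) = σ • (u s + fun _ => -lo) := by
          funext y'; simp only [Pi.smul_apply, Pi.add_apply, smul_eq_mul]; ring
        have h2 : ContDiffAt ℝ 2 (u s) y := hc2.contDiffAt
        have h3 : ContDiffAt ℝ 2 (fun _ : E N => -lo) y := contDiffAt_const
        have h5 : ContDiffAt ℝ 2 (u s + fun _ => -lo) y := h2.add h3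
        rw [h1, InnerProductSpace.laplacian_smul _ h5, h2.laplacian_add h3, smul_eq_mul]
        have h4 : Laplacian.laplacian (fun _ : E N => -lo) y = 0 := by
          rw [Pool.Agent.H90.RD.lap_eq_sum]; simp
        rw [h4, add_zero]
      have hder : HasDerivAt (fun s => σ * (u s y - lo))
          (σ * deriv (fun s => u s y) s) s :=
        (hdt.hasDerivAt.sub_const lo).const_mul σ
      refine ⟨contDiffAt_const.mul (hc2.contDiffAt.sub contDiffAt_const),
        hder.differentiableAt, ?_⟩
      rw [hlap, hder.deriv, hS.sol.sol.eqn s hs2 y]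
      -- closeness to lo
      have hgy := (hbox y hy.le).1
      rw [← hd] at hgy
      have hdy1 : (cc + 2 * δ) * s ≤ infDist y U := by
        have := mul_le_mul_of_nonneg_left hs1.le hδ0.le
        linarith
      have hdy2 : infDist y U ≤ (cc + ηL) * s := by
        have h1 : infDist y U ≤ d + ρ * t := by
          have := infDist_le_infDist_add_dist (s := U) (x := y) (y := x0)
          rw [← hd] at this
          linarith
        have h2 : (cc + ηL) * s0 ≤ (cc + ηL) * s :=
          mul_le_mul_of_nonneg_left hs.1.le (by positivity)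
        have h3 : (cc + ηL) * s0 = (cc + ηL) * t - r * (cc + ηL) * t := by rw [hs0]; ring
        have h4 : r * (cc + ηL) * t ≤ ηL / 4 * t := mul_le_mul_of_nonneg_right hr3 ht0.le
        have h5 : ρ * t ≤ ηL / 4 * t := mul_le_mul_of_nonneg_right hρ3 ht0.le
        have h6 : η * t ≤ ηL / 4 * t := mul_le_mul_of_nonneg_right hη1 ht0.le
        have h7 : 0 < ηL * t := mul_pos hηL ht0
        linarith
      have hup : u s y ≤ lo + ε0 := by
        have h1 := hahead s (by linarith) y (le_trans ?_ hdy1)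
        · exact h1.trans (by linarith [min_le_right (2 * δ) ε0])
        · exact mul_le_mul_of_nonneg_right (by linarith [min_le_left (2 * δ) ε0]) hs2.le
      have hdown : lo - ε0 ≤ u s y := hlow2 s (by linarith) y hdy2
      have hfs := hst (u s y) (by rw [abs_le]; constructor <;> linarith)
      set w : ℝ := u s y - lo with hw
      have h1 : (σ * w) * (σ * f (u s y)) ≤ (σ * w) * (-(κ * (σ * w))) := by
        have e1 : (σ * w) * (σ * f (u s y)) = σ ^ 2 * (w * f (u s y)) := by ring
        have e2 : (σ * w) * (-(κ * (σ * w))) = σ ^ 2 * (-(κ * w ^ 2)) := by ring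
        rw [e1, e2, hσ, one_mul, one_mul]
        exact hfs
      have h2 := le_of_mul_le_mul_left h1 hv
      linarith
    · -- initial time
      intro y _ _
      have h1 := hle1 s0 (by linarith) y
      have h2 := Bs_pos_of_mem a x0 α β (some none) s0 y
      rw [hx2, sub_self, mul_zero, neg_zero, Real.exp_zero] at h2
      exact h1.trans h2
    · -- lateral boundary
      intro s hs y hy _
      have h1 := hle1 s (by linarith [hs.1]) y
      obtain ⟨i, hi⟩ := exists_coord hS.N1 (y - x0)
      rw [← dist_eq_norm, hy] at hi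
      have h2 : b0 * t ≤ k * |(y - x0) i| := by
        have h3 : b0 * t = k * (ρ * t / √N) := by rw [hb0]; ring
        rw [h3]
        exact mul_le_mul_of_nonneg_left hi hk0.le
      have h4 : ∃ b : Bool, k * |(y - x0) i| = (if b then k else -k) * (y - x0) i := by
        rcases le_total 0 ((y - x0) i) with h | h
        · exact ⟨true, by rw [abs_of_nonneg h]; simp⟩
        · exact ⟨false, by rw [abs_of_nonpos h]; simp only [Bool.false_eq_true, if_false]; ring⟩
      obtain ⟨b, hb⟩ := h4
      have h5 := Bs_pos_of_mem a x0 α β (some (some (i, b))) s y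
      rw [hx3] at h5
      have h6 : 1 ≤ Real.exp ((if b then k else -k) * (y - x0) i - b0 * t) :=
        Real.one_le_exp (by linarith)
      linarith
    · -- moving boundary
      intro s hs y _ hl
      simp only at hl
      have h1 := hle1 s (by linarith [hs.1]) y
      have h2 := Bs_pos_of_mem a x0 α β none s y
      rw [hx1] at h2
      have h3 : 1 ≤ Real.exp (-(cc / 2 * (d + inner ℝ (y - x0) e - cc * s)) + ε * t) := by
        refine Real.one_le_exp ?_
        have h4 : d + inner ℝ (y - x0) e - cc * s = 3 * δ * s := by linarith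
        have h5 : cc / 2 * (3 * δ * s) = ε / 2 * s := by rw [← hδε]; ring
        rw [h4, h5]
        have h6 := mul_le_mul_of_nonneg_left hs.2 hε.le
        have h7 : 0 < ε * t := mul_pos hε ht0
        linarith
      linarith
    · simp only [sub_self, inner_zero_left, add_zero]
      linarith
  -- evaluation at the centre
  have hval : Bs a x0 α β t x0 ≤ 3 * Real.exp (-(cc / 2 * (d - cc * t)) + ε * t) := by
    have h1 : Bs a x0 α β t x0 = Real.exp (-(cc / 2 * (d - cc * t)) + ε * t) +
        (Real.exp (-(κ * (t - s0))) + 2 * N * Real.exp (-(b0 * t))) := by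
      unfold Bs
      rw [Fintype.sum_option, Fintype.sum_option, hx1, hx2, Fintype.sum_prod_type]
      simp only [hx3]
      simp only [sub_self, inner_zero_left, add_zero, PiLp.zero_apply, mul_zero, zero_sub]
      rw [Finset.sum_const, Finset.sum_const]
      simp only [Finset.card_univ, Fintype.card_fin, Fintype.card_bool, nsmul_eq_mul]
      push_cast
      ring
    have hηt : cc / 2 * (d - cc * t) ≤ cc / 2 * (η * t) :=
      mul_le_mul_of_nonneg_left (by linarith) (by positivity)
    have hεt : 0 < ε * t := by positivity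
    have h2 : Real.exp (-(κ * (t - s0))) ≤ Real.exp (-(cc / 2 * (d - cc * t)) + ε * t) := by
      refine Real.exp_le_exp.2 ?_
      have h3 : t - s0 = r * t := by rw [hs0]; ring
      rw [h3]
      have h4 : cc * η * t ≤ κ * r * t := mul_le_mul_of_nonneg_right hη4 ht0.le
      have h5 : 0 < κ * r * t := by positivity
      linarith
    have h3 : 2 * N * Real.exp (-(b0 * t)) ≤
        Real.exp (-(cc / 2 * (d - cc * t)) + ε * t) := by
      have h4 : 2 * (N : ℝ) ≤ Real.exp (b0 * t / 2) := by
        have h5 : 2 * (N : ℝ) ≤ b0 * t / 2 := by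
          rw [div_le_iff₀ hb00] at htN
          linarith
        have h6 := Real.add_one_le_exp (b0 * t / 2)
        linarith
      calc 2 * N * Real.exp (-(b0 * t)) ≤ Real.exp (b0 * t / 2) * Real.exp (-(b0 * t)) :=
            mul_le_mul_of_nonneg_right h4 (Real.exp_pos _).le
        _ = Real.exp (-(b0 * t / 2)) := by rw [← Real.exp_add]; congr 1; ring
        _ ≤ _ := by
            refine Real.exp_le_exp.2 ?_
            have h5 : cc * η * t ≤ b0 * t := mul_le_mul_of_nonneg_right hη3 ht0.le
            linarith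
    rw [h1]
    linarith
  rw [abs_le]
  constructor
  · have := hmain (-1) (by norm_num)
    linarith
  · have := hmain 1 (by norm_num)
    linarith

/-- [AHDN] exponential decay of the derivatives ahead, over a stable platform -/
theorem ahdn (hG : T_GEOB) (hI : T_IEU) (hE : T_E0) : T_AHDN := by
  intro N f K cc lo hi U u hS hM hlo hfl hfp
  obtain ⟨η, hη, hc⟩ := claim hG hE hS hM hlo hfl hfp
  obtain ⟨C, hC, hI2⟩ := hI N f K hS.reac hS.lip
  obtain ⟨M, hM0, hMi⟩ := gauss_exp N cc
  have hcc := hM.cpos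
  have hlo1 : lo < 1 := hM.lohi.trans_le hM.hi1
  have hC0 : 0 < C := by linarith
  refine ⟨η / 2, by positivity, fun ε hε => ?_⟩
  obtain ⟨T1, hT1, hcl⟩ := hc (ε / 2) (by positivity)
  set T : ℝ := max (max (T1 + 2) 3) (max (8 * (cc + η) / η) (6 * C * M / ε)) with hT
  have hT3 : (3 : ℝ) ≤ T := (le_max_right _ _).trans (le_max_left _ _)
  refine ⟨T, by linarith, fun t ht x hd1 hd2 => ?_⟩
  have ht3 : 3 ≤ t := hT3.trans ht
  have ht1 : T1 + 2 ≤ t := ((le_max_left _ _).trans (le_max_left _ _)).trans ht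
  have ht4 : 8 * (cc + η) / η ≤ t := ((le_max_left _ _).trans (le_max_right _ _)).trans ht
  have ht5 : 6 * C * M / ε ≤ t := ((le_max_right _ _).trans (le_max_right _ _)).trans ht
  rw [div_le_iff₀ hη] at ht4
  rw [div_le_iff₀ hε] at ht5
  have ht0 : 0 < t := by linarith
  set d : ℝ := infDist x U with hd
  set A : ℝ := Real.exp (-(cc / 2 * (d - cc * t)) + ε / 2 * t) with hA
  have hA0 : 0 < A := Real.exp_pos _
  have hcc2 : 0 < cc ^ 2 := by positivity
  have hεt : 0 < ε * t := mul_pos hε ht0
  have hpt : ∀ y, |u (t - 2) y - lo| ≤ 3 * A * Real.exp (cc * ‖x - y‖) := by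
    intro y
    have hdy : d ≤ infDist y U + ‖x - y‖ := by
      have := infDist_le_infDist_add_dist (s := U) (x := x) (y := y)
      rw [dist_eq_norm] at this
      exact this
    have hn := norm_nonneg (x - y)
    have hccn : 0 ≤ cc * ‖x - y‖ := mul_nonneg hcc.le hn
    have hprod : A * Real.exp (cc * ‖x - y‖) =
        Real.exp (-(cc / 2 * (d - cc * t)) + ε / 2 * t + cc * ‖x - y‖) := by
      rw [hA, ← Real.exp_add]
    have hdy2 : cc / 2 * d ≤ cc / 2 * infDist y U + cc / 2 * ‖x - y‖ := by
      have := mul_le_mul_of_nonneg_left hdy (by positivity : (0 : ℝ) ≤ cc / 2)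
      linarith
    have htriv : 0 ≤ -(cc / 2 * (d - cc * t)) + ε / 2 * t + cc * ‖x - y‖ →
        |u (t - 2) y - lo| ≤ 3 * A * Real.exp (cc * ‖x - y‖) := by
      intro h
      have h1 := Real.one_le_exp h
      have h2 := hS.sol.nonneg (by linarith : 0 < t - 2) y
      have h3 := hS.sol.le_one (by linarith : 0 < t - 2) y
      have h4 : |u (t - 2) y - lo| ≤ 1 := by rw [abs_le]; constructor <;> linarith
      rw [mul_assoc, hprod]
      linarith
    by_cases hB : infDist y U ≤ (cc + η) * (t - 2)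
    · by_cases hA1 : cc * (t - 2) ≤ infDist y U
      · refine (hcl (t - 2) (by linarith) y hA1 hB).trans ?_
        rw [mul_assoc, hprod]
        refine mul_le_mul_of_nonneg_left (Real.exp_le_exp.2 ?_) (by norm_num)
        have e1 : cc / 2 * (infDist y U - cc * (t - 2)) =
            cc / 2 * infDist y U - cc ^ 2 / 2 * t + cc ^ 2 := by ring
        have e2 : cc / 2 * (d - cc * t) = cc / 2 * d - cc ^ 2 / 2 * t := by ring
        have e3 : ε / 2 * (t - 2) = ε / 2 * t - ε := by ring
        rw [e1, e2, e3]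
        linarith
      · push Not at hA1
        apply htriv
        have h1 : cc / 2 * infDist y U ≤ cc / 2 * (cc * (t - 2)) :=
          mul_le_mul_of_nonneg_left hA1.le (by positivity)
        have e1 : cc / 2 * (cc * (t - 2)) = cc ^ 2 / 2 * t - cc ^ 2 := by ring
        have e2 : cc / 2 * (d - cc * t) = cc / 2 * d - cc ^ 2 / 2 * t := by ring
        rw [e2]
        linarith
    · push Not at hB
      apply htriv
      have h1 : infDist y U ≤ d + ‖x - y‖ := by
        have := infDist_le_infDist_add_dist (s := U) (x := y) (y := x)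
        rw [dist_comm, dist_eq_norm] at this
        exact this
      have h2 : η * t / 4 ≤ ‖x - y‖ := by linarith
      have h3 : cc * (η * t / 4) ≤ cc * ‖x - y‖ := mul_le_mul_of_nonneg_left h2 hcc.le
      have h4 : cc / 2 * (d - cc * t) ≤ cc / 2 * (η / 2 * t) :=
        mul_le_mul_of_nonneg_left (by linarith) (by positivity)
      linarith
  -- the integral
  have hint : ∫ y, hk 8 (x - y) * |u (t - 2) y - lo| ≤ 3 * A * M := by
    have h8 : (0 : ℝ) ≤ 8 := by norm_num
    calc ∫ y, hk 8 (x - y) * |u (t - 2) y - lo|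
        ≤ ∫ y, 3 * A * (hk 8 (x - y) * Real.exp (cc * ‖x - y‖)) := by
          refine integral_mono_of_nonneg (Eventually.of_forall fun y => ?_)
            ((hMi x).1.const_mul _) (Eventually.of_forall fun y => ?_)
          · exact mul_nonneg (Pool.Agent.H29.TF.hk_nonneg h8 _) (abs_nonneg _)
          · have h1 := mul_le_mul_of_nonneg_left (hpt y)
              (Pool.Agent.H29.TF.hk_nonneg h8 (x - y))
            calc hk 8 (x - y) * |u (t - 2) y - lo|
                ≤ hk 8 (x - y) * (3 * A * Real.exp (cc * ‖x - y‖)) := h1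
              _ = 3 * A * (hk 8 (x - y) * Real.exp (cc * ‖x - y‖)) := by ring
      _ = 3 * A * ∫ y, hk 8 (x - y) * Real.exp (cc * ‖x - y‖) := integral_const_mul _ _
      _ ≤ 3 * A * M := mul_le_mul_of_nonneg_left (hMi x).2 (by positivity)
  have hfin := hI2 U u hS.sol lo ⟨hlo.le, hlo1.le⟩ hfl t ht3 x
  have h1 : C * ∫ y, hk 8 (x - y) * |u (t - 2) y - lo| ≤ C * (3 * A * M) :=
    mul_le_mul_of_nonneg_left hint hC0.le
  have h2 : 3 * C * M ≤ Real.exp (ε / 2 * t) := by
    have h3 := Real.add_one_le_exp (ε / 2 * t)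
    linarith
  calc gr u t x + |dt u t x| ≤ C * (3 * A * M) := hfin.trans h1
    _ = 3 * C * M * A := by ring
    _ ≤ Real.exp (ε / 2 * t) * A := mul_le_mul_of_nonneg_right h2 hA0.le
    _ = Real.exp (-(cc / 2 * (d - cc * t)) + ε * t) := by
        rw [hA, ← Real.exp_add]
        congr 1
        ring

end Pool.Agent.H10.RF
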